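import Pool.Agent.W307.FK.Stm
import Pool.Agent.W481.RS.Cov
import Pool.Agent.W12.RS.LC

/-! COVU: from the short squares to the regions, uniformly in the function
(adapted from Pool.Agent.W481.RS.Cov). -/

set_option autoImplicit false

namespace Pool.Agent.W32.FK

open Finset Pool.Agent.W262.RK Pool.Agent.W307.RT
open Pool.Agent.W481.RS (root rec1 kap kap_spec fib count)

theorem covu : Pool.Agent.W307.FK.COVU := by
  intro J _ _ _ α β m hR hm hm2
  obtain ⟨C1, hC1⟩ := Pool.Agent.W12.RS.lc1 J α β m hR hm hm2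
  -- another index
  have hother : ∀ i : J, ∃ j, i ≠ j := by
    intro i
    by_contra hcon
    push Not at hcon
    have h1 : ∑ l, m l = m i := by
      rw [Finset.sum_eq_single i (fun b _ hb => absurd (hcon b).symm hb)
        (fun hi => absurd (mem_univ i) hi)]
    have := hm2 i
    omega
  have hab : ∀ j, α j ≠ 0 ∨ β j ≠ 0 := by
    intro j
    by_contra hcon
    push Not at hcon
    obtain ⟨l, hl⟩ := hother j
    apply hR j l hl
    simp [Res, hcon.1, hcon.2]
  set A : ℕ := 1 + ∑ j, ((α j).natAbs + (β j).natAbs) with hAdef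
  have hA1 : 1 ≤ A := by omega
  have hA : ∀ j, |α j| + |β j| ≤ A := by
    intro j
    have : (α j).natAbs + (β j).natAbs ≤ ∑ j, ((α j).natAbs + (β j).natAbs) :=
      Finset.single_le_sum (f := fun j => (α j).natAbs + (β j).natAbs)
        (fun _ _ => Nat.zero_le _) (mem_univ j)
    have h2 : (α j).natAbs + (β j).natAbs ≤ A := by omega
    zify at h2
    exact h2
  set d := ∑ i, m i with hd
  obtain ⟨i0⟩ : Nonempty J := inferInstance
  have hd1 : 1 ≤ d := by have := hm2 i0; omega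
  set C2 : ℕ := 16 * C1 + Fintype.card J * ((4 * A + 1) * (36 * A ^ 2)) with hC2
  refine ⟨3 * A + d ^ 2, C2, by positivity, fun g CB hCB0 hg0 hCB W hW S hS => ?_⟩
  obtain ⟨X, hX2, hWX, hXW⟩ := root d W hd1 hW
  have hX1 : 1 ≤ X := by omega
  have hX2W : X ≤ 2 * W := by
    have : X ^ d ≤ (2 * W) ^ d := by
      rw [mul_pow]
      refine hXW.trans (Nat.mul_le_mul_left _ ?_)
      calc W = W ^ 1 := (pow_one W).symm
        _ ≤ W ^ d := Nat.pow_le_pow_right hW hd1
    exact (Nat.pow_le_pow_iff_left (by omega)).mp this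
  have hcount := count C1 hA hA1 hR hm hm2 hab hC1 X W hX1 hW hX2W hXW S hS
  -- the base points
  have hbase : ∀ q ∈ S.image (kap X), (X * q.1).natAbs ≤ X ^ (3 * A + d ^ 2) ∧
      (X * q.2).natAbs ≤ X ^ (3 * A + d ^ 2) := by
    intro q hq
    rw [mem_image] at hq
    obtain ⟨t, htS, rfl⟩ := hq
    obtain ⟨r1, r2, b1, b2, e1, e2⟩ := kap_spec X hX1 t
    obtain ⟨hS0, hS'⟩ := hS t htS
    have hval : ∀ j, (fv α β t.1 t.2 j).natAbs ≤ X ^ (d ^ 2) := by
      intro j
      have hpos : ∀ l, 0 < (fv α β t.1 t.2 l).natAbs := fun l => Int.natAbs_pos.mpr (hS0 l)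
      calc (fv α β t.1 t.2 j).natAbs = (fv α β t.1 t.2 j).natAbs ^ 1 := (pow_one _).symm
        _ ≤ (fv α β t.1 t.2 j).natAbs ^ m j := Nat.pow_le_pow_right (hpos j) (hm j)
        _ ≤ ∏ l, (fv α β t.1 t.2 l).natAbs ^ m l := by
            rw [← Finset.mul_prod_erase univ _ (mem_univ j)]
            exact Nat.le_mul_of_pos_right _
              (Finset.prod_pos fun l _ => Nat.pow_pos (hpos l))
        _ ≤ W ^ d := hS'
        _ ≤ (X ^ d) ^ d := Nat.pow_le_pow_left hWX.le d
        _ = X ^ (d ^ 2) := by rw [← pow_mul, sq]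
    have hval' : ∀ j, |fv α β t.1 t.2 j| ≤ (X : ℤ) ^ (d ^ 2) := by
      intro j
      have := hval j
      zify at this
      exact this
    obtain ⟨i, hi⟩ := hother i0
    obtain ⟨a1, a2⟩ := rec1 hA (hR i0 i hi) t.1 t.2
    have hP1 : (X : ℤ) ≤ (X : ℤ) ^ (d ^ 2) := by
      calc (X : ℤ) = (X : ℤ) ^ 1 := (pow_one _).symm
        _ ≤ (X : ℤ) ^ (d ^ 2) := by
          apply pow_le_pow_right₀ (by exact_mod_cast hX1)
          exact Nat.one_le_pow _ _ hd1
    have hA0 : (1 : ℤ) ≤ A := by exact_mod_cast hA1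
    have hbig : 3 * (A : ℤ) * (X : ℤ) ^ (d ^ 2) ≤ (X : ℤ) ^ (3 * A + d ^ 2) := by
      rw [pow_add]
      refine mul_le_mul_of_nonneg_right ?_ (by positivity)
      have h1 : 3 * A ≤ X ^ (3 * A) := by
        calc 3 * A ≤ 2 ^ (3 * A) := Nat.lt_two_pow_self.le
          _ ≤ X ^ (3 * A) := Nat.pow_le_pow_left hX2 _
      exact_mod_cast h1
    have hsum : (A : ℤ) * (|fv α β t.1 t.2 i0| + |fv α β t.1 t.2 i|) ≤
        A * (2 * (X : ℤ) ^ (d ^ 2)) := by
      refine mul_le_mul_of_nonneg_left ?_ (by omega)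
      have := hval' i0
      have := hval' i
      linarith
    have hXA : (X : ℤ) ≤ A * (X : ℤ) ^ (d ^ 2) :=
      hP1.trans (le_mul_of_one_le_left (by positivity) hA0)
    constructor
    · have h3 : |(X : ℤ) * (kap X t).1| ≤ (X : ℤ) ^ (3 * A + d ^ 2) := by
        have h4 : (X : ℤ) * (kap X t).1 = t.1 - r1 := by linarith
        rw [h4]
        calc |t.1 - r1| ≤ |t.1| + |r1| := abs_sub _ _
          _ ≤ A * (2 * (X : ℤ) ^ (d ^ 2)) + X := by
            refine add_le_add (a1.trans hsum) ?_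
            rw [abs_of_nonneg (by omega)]; exact b1.2
          _ ≤ 3 * (A : ℤ) * (X : ℤ) ^ (d ^ 2) := by linarith
          _ ≤ _ := hbig
      zify
      exact h3
    · have h3 : |(X : ℤ) * (kap X t).2| ≤ (X : ℤ) ^ (3 * A + d ^ 2) := by
        have h4 : (X : ℤ) * (kap X t).2 = t.2 - r2 := by linarith
        rw [h4]
        calc |t.2 - r2| ≤ |t.2| + |r2| := abs_sub _ _
          _ ≤ A * (2 * (X : ℤ) ^ (d ^ 2)) + X := by
            refine add_le_add (a2.trans hsum) ?_
            rw [abs_of_nonneg (by omega)]; exact b2.2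
          _ ≤ 3 * (A : ℤ) * (X : ℤ) ^ (d ^ 2) := by linarith
          _ ≤ _ := hbig
      zify
      exact h3
  calc ∑ t ∈ S, g t
      = ∑ q ∈ S.image (kap X), ∑ t ∈ S.filter (fun t => kap X t = q), g t :=
        (Finset.sum_fiberwise_of_maps_to (fun t ht => mem_image_of_mem _ ht) _).symm
    _ ≤ ∑ q ∈ S.image (kap X), CB * (X : ℝ) ^ 2 := by
        refine Finset.sum_le_sum fun q hq => ?_
        refine (fib g hg0 X hX1 S q).trans ?_
        obtain ⟨hb1, hb2⟩ := hbase q hq
        exact hCB (X * q.1) (X * q.2) X hX1 hb1 hb2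
    _ = CB * (((S.image (kap X)).card * X ^ 2 : ℕ) : ℝ) := by
        rw [Finset.sum_const, nsmul_eq_mul]; push_cast; ring
    _ ≤ CB * ((C2 * W ^ 2 : ℕ) : ℝ) := by
        refine mul_le_mul_of_nonneg_left ?_ hCB0
        exact_mod_cast hcount
    _ = _ := by push_cast; ring

end Pool.Agent.W32.FK
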